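import Pool.Agent.Helper26.DA.Goals

/-!
# Project DA (MP_05c055_al), packet MG: minimal generators of the maximal ideal
-/

set_option autoImplicit false

namespace Pool.Agent.Helper94.DA

open IsLocalRing Pool.Agent.Helper26.DA

universe u

theorem gMG : G_MG.{u} := by
  intro A _ _ _
  have hsurj := Ideal.toCotangent_surjective (maximalIdeal A)
  set b := Module.finBasis (ResidueField A) (CotangentSpace A) with hb
  choose a ha using fun l => hsurj (b l)
  refine ⟨fun l => (a l : A), ?_, ?_⟩
  · have h1 : Submodule.span (ResidueField A)
        ((maximalIdeal A).toCotangent '' (Set.range a)) = ⊤ := by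
      rw [← Set.range_comp]
      have h2 : (⇑(maximalIdeal A).toCotangent ∘ a) = b := funext fun l => ha l
      rw [h2, b.span_eq]
    have h3 := CotangentSpace.span_image_eq_top_iff.mp h1
    have h4 : Submodule.map (Submodule.subtype (maximalIdeal A)) (Submodule.span A (Set.range a)) =
        maximalIdeal A := by
      rw [h3, Submodule.map_top, Submodule.range_subtype]
    rw [Submodule.map_span, ← Set.range_comp] at h4
    exact h4
  · intro w hw l
    have h1 : ∑ l, w l • a l = 0 := by
      apply Subtype.ext
      simp only [AddSubmonoidClass.coe_finsetSum, SetLike.val_smul, smul_eq_mul, ZeroMemClass.coe_zero]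
      rw [← hw]
      exact Finset.sum_congr rfl fun l _ => mul_comm _ _
    have h2 : ∑ l, (residue A (w l)) • b l = 0 := by
      have h3 := congrArg (maximalIdeal A).toCotangent h1
      rw [map_sum, map_zero] at h3
      rw [← h3]
      refine Finset.sum_congr rfl fun l _ => ?_
      rw [LinearMap.map_smul, ha l]
      exact algebraMap_smul (ResidueField A) (w l) (b l)
    have h4 := Fintype.linearIndependent_iff.mp b.linearIndependent _ h2 l
    exact (residue_eq_zero_iff _).mp h4

end Pool.Agent.Helper94.DA
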